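import Mathlib

/-!
# Hilbert series of polarization modules need not be `h`-positive (MP_55095a)

For `ℓ = n = 2` and `f = (x₁₁ x₂₂ - x₁₂ x₂₁)²`, which is homogeneous of multidegree `(2,2)` and
diagonally symmetric, the degree-4 part of the Hilbert series of the polarization module of `f` is
`q₁² q₂²`, which is not a nonnegative combination of the polynomials `h_μ`.
-/

namespace Pool.Agent.Results.MP_55095a_co.NotHPositive

open MvPolynomial

/-- The polynomial ring `R = ℂ[x_{ij} : 1 ≤ i ≤ ℓ, 1 ≤ j ≤ n]`. -/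
abbrev Poly (ℓ n : ℕ) := MvPolynomial (Fin ℓ × Fin n) ℂ

/-- The diagonal action of the symmetric group: `σ · x_{ij} = x_{iσ(j)}`. -/
noncomputable def act {ℓ n : ℕ} (σ : Equiv.Perm (Fin n)) (f : Poly ℓ n) : Poly ℓ n :=
  rename (fun p => (p.1, σ p.2)) f

/-- `f` is diagonally symmetric. -/
def DiagSymm {ℓ n : ℕ} (f : Poly ℓ n) : Prop := ∀ σ : Equiv.Perm (Fin n), act σ f = f

/-- The weight of a variable: `x_{ij}` has multidegree `e_i`. -/
noncomputable def wt {ℓ n : ℕ} (p : Fin ℓ × Fin n) : Fin ℓ →₀ ℕ := Finsupp.single p.1 1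

/-- The space `R_d` of polynomials that are homogeneous of multidegree `d`. -/
noncomputable def Rdeg (ℓ n : ℕ) (d : Fin ℓ →₀ ℕ) : Submodule ℂ (Poly ℓ n) :=
  weightedHomogeneousSubmodule ℂ wt d

/-- The generalized polarization operator `E^{(p)}_{i,k} = ∑_j x_{ij} ∂_{kj}^p`. -/
noncomputable def E {ℓ n : ℕ} (p : ℕ) (i k : Fin ℓ) (g : Poly ℓ n) : Poly ℓ n :=
  ∑ j : Fin n, X (i, j) * (fun h : Poly ℓ n => pderiv (k, j) h)^[p] g

/-- The polarization module `M_f`: the smallest subspace containing the orbit of `f` and closed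
under all `∂_{ij}` and all `E^{(p)}_{i,k}` with `p ≥ 1`. -/
noncomputable def polMod {ℓ n : ℕ} (f : Poly ℓ n) : Submodule ℂ (Poly ℓ n) :=
  sInf {N | (∀ σ, act σ f ∈ N) ∧ (∀ p, ∀ g ∈ N, pderiv p g ∈ N) ∧
    ∀ p, 1 ≤ p → ∀ i k, ∀ g ∈ N, E p i k g ∈ N}

/-- `h_μ(q₁, …, q_ℓ)`. -/
noncomputable def hPoly (ℓ : ℕ) (μ : Multiset ℕ) : MvPolynomial (Fin ℓ) ℤ :=
  (μ.map (hsymm (Fin ℓ) ℤ)).prod

/-- The Hilbert series of `M_f` is a finite nonnegative integer combination of the `h_μ`, over
partitions `μ` (multisets of positive integers) with `|μ| ≤ deg f`. -/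
def HPositive {ℓ n : ℕ} (f : Poly ℓ n) : Prop :=
  ∃ a : Multiset ℕ →₀ ℕ, (∀ μ ∈ a.support, 0 ∉ μ ∧ μ.sum ≤ f.totalDegree) ∧
    ∀ d : Fin ℓ →₀ ℕ, (Module.finrank ℂ ↥(polMod f ⊓ Rdeg ℓ n d) : ℤ) =
      coeff d (a.sum fun μ c => c • hPoly ℓ μ)

/-- The counterexample: the square of the `2 × 2` determinant. -/
noncomputable def f0 : Poly 2 2 := (X (0, 0) * X (1, 1) - X (0, 1) * X (1, 0)) ^ 2

theorem totalDegree_pderiv {σ : Type*} (i : σ) (n : ℕ) (g : MvPolynomial σ ℂ)
    (h : g.totalDegree ≤ n + 1) : (pderiv i g).totalDegree ≤ n := by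
  conv_lhs => rw [← sum_homogeneousComponent g, map_sum]
  refine totalDegree_finsetSum_le fun k hk => ?_
  have h1 : (pderiv i (homogeneousComponent k g)).IsHomogeneous (k - 1) :=
    (homogeneousComponent_isHomogeneous k g).pderiv
  refine h1.totalDegree_le.trans ?_
  have := Finset.mem_range.1 hk
  omega

theorem totalDegree_pderiv_le {σ : Type*} (i : σ) (n : ℕ) (g : MvPolynomial σ ℂ)
    (h : g.totalDegree ≤ n) : (pderiv i g).totalDegree ≤ n :=
  totalDegree_pderiv i n g (by omega)

theorem iter_le {σ : Type*} (i : σ) (n p : ℕ) (g : MvPolynomial σ ℂ)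
    (h : g.totalDegree ≤ n) : ((fun h => pderiv i h)^[p] g).totalDegree ≤ n := by
  induction p generalizing g with
  | zero => simpa using h
  | succ p ih => exact ih _ (totalDegree_pderiv_le i n g h)

theorem E_le {ℓ n : ℕ} (m p : ℕ) (hp : 1 ≤ p) (i k : Fin ℓ) (g : Poly ℓ n)
    (h : g.totalDegree ≤ m + 1) : (E p i k g).totalDegree ≤ m + 1 := by
  obtain ⟨p, rfl⟩ : ∃ q, p = q + 1 := ⟨p - 1, by omega⟩
  unfold E
  refine totalDegree_finsetSum_le fun j _ => ?_
  refine (totalDegree_mul _ _).trans ?_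
  have h1 : ((fun h : Poly ℓ n => pderiv (k, j) h)^[p + 1] g).totalDegree ≤ m := by
    rw [Function.iterate_succ_apply]
    exact iter_le _ _ _ _ (totalDegree_pderiv _ _ _ h)
  have h2 : (X (i, j) : Poly ℓ n).totalDegree = 1 := totalDegree_X _
  omega

theorem f0_hom : f0.IsHomogeneous 4 := by
  unfold f0
  have h : (X (0, 0) * X (1, 1) - X (0, 1) * X (1, 0) : Poly 2 2).IsHomogeneous 2 :=
    ((isHomogeneous_X _ _).mul (isHomogeneous_X _ _)).sub
      ((isHomogeneous_X _ _).mul (isHomogeneous_X _ _))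
  exact h.pow 2

theorem f0_mdeg : f0 ∈ Rdeg 2 2 (Finsupp.single 0 2 + Finsupp.single 1 2) := by
  have hX : ∀ p : Fin 2 × Fin 2, IsWeightedHomogeneous wt (X p : Poly 2 2) (Finsupp.single p.1 1) :=
    fun p => isWeightedHomogeneous_X _ _ _
  have h : IsWeightedHomogeneous wt (X (0, 0) * X (1, 1) - X (0, 1) * X (1, 0) : Poly 2 2)
      (Finsupp.single 0 1 + Finsupp.single 1 1) :=
    ((weightedHomogeneousSubmodule ℂ wt _).sub_mem ((hX (0, 0)).mul (hX (1, 1)))
      ((hX (0, 1)).mul (hX (1, 0))))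
  have h2 := h.pow 2
  have e : 2 • (Finsupp.single 0 1 + Finsupp.single 1 1 : Fin 2 →₀ ℕ) =
      Finsupp.single 0 2 + Finsupp.single 1 2 := by
    rw [smul_add, Finsupp.smul_single, Finsupp.smul_single]; rfl
  rw [e] at h2
  exact h2

theorem f0_symm : DiagSymm f0 := by
  intro σ
  unfold act f0
  have h : σ = 1 ∨ σ = Equiv.swap 0 1 := by revert σ; decide
  rcases h with rfl | rfl
  · simp
  · simp only [map_pow, map_sub, map_mul, rename_X, Equiv.swap_apply_left, Equiv.swap_apply_right]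
    ring

theorem f0_E1 (i k : Fin 2) : E 1 i k f0 = (if i = k then (2 : ℂ) else 0) • f0 := by
  unfold E f0
  simp only [Function.iterate_one, Fin.sum_univ_two]
  fin_cases i <;> fin_cases k <;>
    simp [Derivation.leibniz_pow, Derivation.leibniz, pderiv_X, Prod.ext_iff,
      MvPolynomial.smul_eq_C_mul] <;> ring_nf <;> simp [map_ofNat] <;> ring

/-- The space `ℂ f₀ + {g : deg g ≤ 3}`. -/
noncomputable def W : Submodule ℂ (Poly 2 2) where
  carrier := {g | ∃ (c : ℂ) (h : Poly 2 2), g = c • f0 + h ∧ h.totalDegree ≤ 3}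
  add_mem' := by
    rintro _ _ ⟨c, h, rfl, hh⟩ ⟨c', h', rfl, hh'⟩
    refine ⟨c + c', h + h', by rw [add_smul]; abel, ?_⟩
    exact (totalDegree_add _ _).trans (max_le hh hh')
  zero_mem' := ⟨0, 0, by simp, by simp⟩
  smul_mem' := by
    rintro a _ ⟨c, h, rfl, hh⟩
    refine ⟨a * c, a • h, by rw [smul_add, smul_smul], ?_⟩
    exact (totalDegree_smul_le _ _).trans hh

theorem mem_W_of_le {g : Poly 2 2} (h : g.totalDegree ≤ 3) : g ∈ W := ⟨0, g, by simp, h⟩

theorem f0_mem_W : f0 ∈ W := ⟨1, 0, by simp, by simp⟩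

theorem E_add {ℓ n : ℕ} (p : ℕ) (i k : Fin ℓ) (g g' : Poly ℓ n) :
    E p i k (g + g') = E p i k g + E p i k g' := by
  have h : ∀ (q : Fin ℓ × Fin n) (g g' : Poly ℓ n), (fun h : Poly ℓ n => pderiv q h)^[p] (g + g') =
      (fun h : Poly ℓ n => pderiv q h)^[p] g + (fun h : Poly ℓ n => pderiv q h)^[p] g' := by
    intro q
    induction p with
    | zero => simp
    | succ p ih => intro g g'; simp only [Function.iterate_succ_apply, map_add, ih]
  simp only [E, h, mul_add, Finset.sum_add_distrib]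

theorem E_smul {ℓ n : ℕ} (p : ℕ) (i k : Fin ℓ) (c : ℂ) (g : Poly ℓ n) :
    E p i k (c • g) = c • E p i k g := by
  have h : ∀ (q : Fin ℓ × Fin n) (g : Poly ℓ n), (fun h : Poly ℓ n => pderiv q h)^[p] (c • g) =
      c • (fun h : Poly ℓ n => pderiv q h)^[p] g := by
    intro q
    induction p with
    | zero => simp
    | succ p ih =>
      intro g
      simp only [Function.iterate_succ_apply]
      rw [← ih]
      congr 1
      exact (pderiv q).map_smul c g
  simp only [E, h, Finset.smul_sum, mul_smul_comm]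

theorem polMod_le : polMod f0 ≤ W := by
  apply sInf_le
  refine ⟨fun σ => by rw [f0_symm σ]; exact f0_mem_W, ?_, ?_⟩
  · rintro p _ ⟨c, h, rfl, hh⟩
    apply mem_W_of_le
    rw [map_add, (pderiv p).map_smul]
    refine (totalDegree_add _ _).trans (max_le ?_ ?_)
    · exact (totalDegree_smul_le _ _).trans f0_hom.pderiv.totalDegree_le
    · exact totalDegree_pderiv_le _ _ _ hh
  · rintro p hp i k _ ⟨c, h, rfl, hh⟩
    rw [E_add, E_smul]
    refine W.add_mem (W.smul_mem _ ?_) (mem_W_of_le (E_le 2 p hp i k h hh))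
    rcases hp.lt_or_eq with hp' | rfl
    · apply mem_W_of_le
      obtain ⟨p, rfl⟩ : ∃ q, p = q + 2 := ⟨p - 2, by omega⟩
      unfold E
      refine totalDegree_finsetSum_le fun j _ => ?_
      refine (totalDegree_mul _ _).trans ?_
      have h1 : ((fun h : Poly 2 2 => pderiv (k, j) h)^[p + 2] f0).totalDegree ≤ 2 := by
        rw [Function.iterate_succ_apply, Function.iterate_succ_apply]
        exact iter_le _ _ _ _ (totalDegree_pderiv _ _ _ f0_hom.pderiv.totalDegree_le)
      have h2 : (X (i, j) : Poly 2 2).totalDegree = 1 := totalDegree_X _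
      omega
    · rw [f0_E1]
      exact W.smul_mem _ f0_mem_W

/-- The monomial `x₁₁² x₂₂²`. -/
noncomputable def m0 : Fin 2 × Fin 2 →₀ ℕ := Finsupp.single (0, 0) 2 + Finsupp.single (1, 1) 2

theorem coeff_m0_f0 : coeff m0 f0 = 1 := by
  have e : f0 = monomial (Finsupp.single (0, 0) 2 + Finsupp.single (1, 1) 2) 1 -
      monomial (Finsupp.single (0, 0) 1 + Finsupp.single (1, 1) 1 +
        Finsupp.single (0, 1) 1 + Finsupp.single (1, 0) 1) 2 +
      monomial (Finsupp.single (0, 1) 2 + Finsupp.single (1, 0) 2) 1 := by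
    have hm : ∀ (s : Fin 2 × Fin 2 →₀ ℕ) (c : ℂ), monomial s c = C c * monomial s 1 := by
      intro s c; rw [C_mul_monomial, mul_one]
    rw [hm _ 2]
    simp only [monomial_add_single, ← X_pow_eq_monomial, pow_one]
    unfold f0
    rw [map_ofNat]
    ring
  rw [e]
  simp only [coeff_add, coeff_sub, coeff_monomial, m0]
  rw [if_pos trivial, if_neg, if_neg]
  · norm_num
  · intro h
    have := DFunLike.congr_fun h (0, 0)
    simp at this
  · intro h
    have := DFunLike.congr_fun h (0, 0)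
    simp at this

theorem weight_deg (m : Fin 2 × Fin 2 →₀ ℕ) (i : Fin 2) :
    (Finsupp.weight wt m) i = m (i, 0) + m (i, 1) := by
  rw [Finsupp.weight_apply, Finsupp.sum_fintype _ _ (by simp), Fintype.sum_prod_type]
  simp only [Fin.sum_univ_two, wt]
  fin_cases i <;> simp

theorem inf_eq_bot : polMod f0 ⊓ Rdeg 2 2 (Finsupp.single 0 4) = ⊥ := by
  rw [eq_bot_iff]
  rintro g ⟨hg, hd⟩
  obtain ⟨c, h, rfl, hh⟩ := polMod_le hg
  have hd' : IsWeightedHomogeneous wt (c • f0 + h) (Finsupp.single 0 4) := hd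
  have hcm : coeff m0 (c • f0 + h) = 0 := by
    by_contra hne
    have h1 := hd' hne
    have h2 := DFunLike.congr_fun h1 1
    rw [weight_deg] at h2
    simp [m0] at h2
  have hc0 : c = 0 := by
    rw [coeff_add, coeff_smul, coeff_m0_f0, smul_eq_mul, mul_one] at hcm
    have : coeff m0 h = 0 := by
      apply coeff_eq_zero_of_totalDegree_lt
      have e4 : (∑ i ∈ m0.support, m0 i) = 4 := by
        have : (∑ i ∈ m0.support, m0 i) = m0.sum fun _ k => k := rfl
        rw [this, m0, Finsupp.sum_add_index' (by simp) (by simp),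
          Finsupp.sum_single_index rfl, Finsupp.sum_single_index rfl]
      rw [e4]; omega
    rw [this, add_zero] at hcm
    exact hcm
  subst hc0
  rw [zero_smul, zero_add] at hd' ⊢
  have : h = 0 := by
    ext m
    rw [coeff_zero]
    by_contra hne
    have h1 := hd' hne
    have h2 := DFunLike.congr_fun h1 0
    have h3 := DFunLike.congr_fun h1 1
    rw [weight_deg] at h2 h3
    simp only [Finsupp.single_apply, if_true] at h2
    have h4 : (m.sum fun _ k => k) ≤ h.totalDegree := le_totalDegree (mem_support_iff.2 hne)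
    rw [Finsupp.sum_fintype _ _ (by simp), Fintype.sum_prod_type] at h4
    simp only [Fin.sum_univ_two] at h4
    omega
  rw [this]
  exact Submodule.zero_mem _

theorem f0_ne : f0 ≠ 0 := by
  intro h
  have := coeff_m0_f0
  rw [h] at this
  simp at this

theorem finrank_pos : 0 < Module.finrank ℂ
    ↥(polMod f0 ⊓ Rdeg 2 2 (Finsupp.single 0 2 + Finsupp.single 1 2)) := by
  have hle : Rdeg 2 2 (Finsupp.single 0 2 + Finsupp.single 1 2) ≤
      restrictTotalDegree (Fin 2 × Fin 2) ℂ 4 := by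
    intro g hg
    rw [mem_restrictTotalDegree]
    have hg' : IsWeightedHomogeneous wt g (Finsupp.single 0 2 + Finsupp.single 1 2) := hg
    unfold totalDegree
    refine Finset.sup_le fun m hm => ?_
    have h1 := hg' (mem_support_iff.1 hm)
    have h2 := DFunLike.congr_fun h1 0
    have h3 := DFunLike.congr_fun h1 1
    rw [weight_deg] at h2 h3
    simp at h2 h3
    rw [Finsupp.sum_fintype _ _ (by simp), Fintype.sum_prod_type]
    simp only [Fin.sum_univ_two]
    omega
  have hfin : Module.Finite ℂ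
      ↥(polMod f0 ⊓ Rdeg 2 2 (Finsupp.single 0 2 + Finsupp.single 1 2)) :=
    Submodule.finiteDimensional_of_le (inf_le_right.trans hle)
  have hmem : f0 ∈ polMod f0 ⊓ Rdeg 2 2 (Finsupp.single 0 2 + Finsupp.single 1 2) := by
    refine ⟨?_, f0_mdeg⟩
    rw [SetLike.mem_coe, polMod, Submodule.mem_sInf]
    rintro N ⟨h, -, -⟩
    have := h 1
    rwa [f0_symm 1] at this
  rw [Module.finrank_pos_iff_exists_ne_zero]
  exact ⟨⟨f0, hmem⟩, fun h => f0_ne (congrArg Subtype.val h)⟩

/-- Setting `q₂ = 0`. -/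
noncomputable def φ : MvPolynomial (Fin 2) ℤ →ₐ[ℤ] Polynomial ℤ :=
  aeval fun i => if i = 0 then Polynomial.X else 0

theorem coeff_φ (P : MvPolynomial (Fin 2) ℤ) (n : ℕ) :
    (φ P).coeff n = coeff (Finsupp.single 0 n) P := by
  induction P using MvPolynomial.induction_on' with
  | monomial m c =>
    rw [φ, aeval_monomial, coeff_monomial, Finsupp.prod_fintype _ _ (by simp), Fin.prod_univ_two]
    simp only [if_true, one_ne_zero, if_false, Fin.isValue]
    by_cases h1 : m 1 = 0
    · rw [h1, pow_zero, mul_one]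
      rw [Polynomial.algebraMap_apply, Polynomial.coeff_C_mul, Polynomial.coeff_X_pow]
      by_cases hn : n = m 0
      · rw [if_pos hn, if_pos]
        · simp
        · ext i; fin_cases i <;> simp [hn, h1]
      · rw [if_neg hn, if_neg]
        · simp
        · intro h; apply hn; rw [h]; simp
    · rw [zero_pow h1, mul_zero, mul_zero, Polynomial.coeff_zero, if_neg]
      intro h; apply h1; rw [h]; simp
  | add p q hp hq => rw [map_add, Polynomial.coeff_add, hp, hq, coeff_add]

theorem φ_hsymm (k : ℕ) : φ (hsymm (Fin 2) ℤ k) = Polynomial.X ^ k := by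
  rw [hsymm, map_sum, Finset.sum_eq_single (Sym.replicate k (0 : Fin 2))]
  · rw [map_multiset_prod, Multiset.map_map]
    simp [φ, Sym.coe_replicate]
  · intro s _ hs
    rw [map_multiset_prod, Multiset.map_map]
    apply Multiset.prod_eq_zero
    rw [Multiset.mem_map]
    have : ∃ x ∈ s, x ≠ (0 : Fin 2) := by
      by_contra hcon
      push Not at hcon
      exact hs (Sym.eq_replicate.2 hcon)
    obtain ⟨x, hx, hx0⟩ := this
    exact ⟨x, hx, by simp [φ, hx0]⟩
  · intro h; exact absurd (Finset.mem_univ _) h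

theorem φ_hPoly (μ : Multiset ℕ) : φ (hPoly 2 μ) = Polynomial.X ^ μ.sum := by
  rw [hPoly, map_multiset_prod, Multiset.map_map]
  induction μ using Multiset.induction_on with
  | empty => simp
  | cons a μ ih =>
    rw [Multiset.map_cons, Multiset.prod_cons, ih, Multiset.sum_cons, pow_add]
    simp [φ_hsymm]

theorem prod_X_hom (s : Multiset (Fin 2)) :
    ((s.map X).prod : MvPolynomial (Fin 2) ℤ).IsHomogeneous s.card := by
  induction s using Multiset.induction_on with
  | empty => simp [isHomogeneous_one]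
  | cons a s ih =>
    rw [Multiset.map_cons, Multiset.prod_cons, Multiset.card_cons, add_comm]
    exact (isHomogeneous_X _ _).mul ih

theorem hsymm_hom (k : ℕ) : (hsymm (Fin 2) ℤ k).IsHomogeneous k := by
  unfold hsymm
  refine IsHomogeneous.sum _ _ _ fun s _ => ?_
  have := prod_X_hom s.1
  rwa [s.2] at this

theorem hPoly_hom (μ : Multiset ℕ) : (hPoly 2 μ).IsHomogeneous μ.sum := by
  induction μ using Multiset.induction_on with
  | empty => simp [hPoly, isHomogeneous_one]
  | cons a μ ih =>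
    rw [hPoly, Multiset.map_cons, Multiset.prod_cons, Multiset.sum_cons]
    exact (hsymm_hom _).mul ih

/-- **Q1 is false**: for `ℓ = n = 2` and `f = (x₁₁ x₂₂ - x₁₂ x₂₁)²`, which is homogeneous of
multidegree `(2, 2)` and diagonally symmetric, the Hilbert series of the polarization module of
`f` is not `h`-positive. -/
theorem result : f0 ∈ Rdeg 2 2 (Finsupp.single 0 2 + Finsupp.single 1 2) ∧ DiagSymm f0 ∧
    ¬ HPositive f0 := by
  refine ⟨f0_mdeg, f0_symm, ?_⟩
  rintro ⟨a, -, ha⟩
  have h1 := ha (Finsupp.single 0 4)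
  rw [inf_eq_bot, finrank_bot] at h1
  rw [← coeff_φ, Finsupp.sum, map_sum, Polynomial.finsetSum_coeff] at h1
  simp only [map_nsmul, φ_hPoly, Polynomial.coeff_smul, Polynomial.coeff_X_pow] at h1
  have h2 : ∀ μ ∈ a.support, μ.sum ≠ 4 := by
    intro μ hμ hs
    have h3 : ∀ ν ∈ a.support, 0 ≤ a ν • (if 4 = ν.sum then (1 : ℤ) else 0) := by
      intro ν _
      apply nsmul_nonneg
      split_ifs <;> norm_num
    have h4 := (Finset.sum_eq_zero_iff_of_nonneg h3).1 (by simpa using h1.symm) μ hμ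
    rw [if_pos hs.symm] at h4
    have h5 := Finsupp.mem_support_iff.1 hμ
    simp at h4
    exact h5 h4
  have h6 := ha (Finsupp.single 0 2 + Finsupp.single 1 2)
  have h7 : coeff (Finsupp.single 0 2 + Finsupp.single 1 2)
      (a.sum fun μ c => c • hPoly 2 μ) = 0 := by
    rw [Finsupp.sum, coeff_sum]
    apply Finset.sum_eq_zero
    intro μ hμ
    rw [coeff_smul]
    have : coeff (Finsupp.single 0 2 + Finsupp.single 1 2) (hPoly 2 μ) = 0 := by
      by_contra hne
      have h8 := hPoly_hom μ hne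
      apply h2 μ hμ
      rw [← h8]
      simp [Finsupp.weight_apply, Finsupp.sum_fintype, Fin.sum_univ_two]
    rw [this, smul_zero]
  rw [h7] at h6
  have := finrank_pos
  omega

end Pool.Agent.Results.MP_55095a_co.NotHPositive
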